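import Pool.Agent.L0h21.CK.Stm

/-!
# Project CK, module diag
-/

set_option autoImplicit false

namespace Pool.Agent.L0h60.CK

open MvPolynomial Pool.Agent.L0h21.CK Finsupp

section

variable {K : Type} [Field K] {V : Type}

/-- the Hessian at the origin -/
noncomputable def hess (q : MvPolynomial V K) (u v : V) : K := eval 0 (pderiv u (pderiv v q))

theorem eval_zero (q : MvPolynomial V K) : eval (0 : V → K) q = coeff 0 q := by
  rw [MvPolynomial.eval_zero, constantCoeff_eq]

theorem hess_coeff (q : MvPolynomial V K) (u v : V) : hess q u v =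
    coeff (single u 1 + single v 1) q * (((single u 1 : V →₀ ℕ) v : K) + 1) := by
  unfold hess
  rw [eval_zero, coeff_pderiv, coeff_pderiv]
  simp

theorem hess_symm (q : MvPolynomial V K) (u v : V) : hess q u v = hess q v u := by
  classical
  rw [hess_coeff, hess_coeff, add_comm (single u 1)]
  congr 3
  rw [single_apply, single_apply]
  by_cases h : u = v
  · rw [if_pos h, if_pos h.symm]
  · rw [if_neg h, if_neg fun h' => h h'.symm]

theorem ord3 [CharZero K] {q : MvPolynomial V K} (h0 : coeff 0 q = 0)
    (h1 : ∀ v, eval 0 (pderiv v q) = 0) (h2 : ∀ u v, hess q u v = 0) : OrdP 3 q := by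
  classical
  have key : ∀ (v : V) (d' : V →₀ ℕ), coeff d' (pderiv v q) = 0 → coeff (d' + single v 1) q = 0 := by
    intro v d' h
    rw [coeff_pderiv] at h
    rcases mul_eq_zero.1 h with h | h
    · exact h
    · exfalso
      have : ((d' v + 1 : ℕ) : K) ≠ 0 := Nat.cast_ne_zero.2 (Nat.succ_ne_zero _)
      apply this
      push_cast
      exact h
  have hdec : ∀ d : V →₀ ℕ, d ≠ 0 → ∃ (v : V) (d' : V →₀ ℕ), d = d' + single v 1 ∧
      d.degree = d'.degree + 1 := by
    intro d hd
    obtain ⟨v, hv⟩ := Finsupp.ne_iff.1 hd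
    have hv' : 1 ≤ d v := Nat.one_le_iff_ne_zero.2 hv
    have e : d = (d - single v 1) + single v 1 := by
      rw [tsub_add_cancel_of_le]
      rwa [single_le_iff]
    refine ⟨v, d - single v 1, e, ?_⟩
    conv_lhs => rw [e]
    rw [map_add, degree_single]
  intro d hd
  by_cases hd0 : d = 0
  · rw [hd0, h0]
  obtain ⟨v, d', e, hdeg⟩ := hdec d hd0
  rw [e]
  apply key
  by_cases hd1 : d' = 0
  · rw [hd1, ← eval_zero]
    exact h1 v
  obtain ⟨u, d'', e', hdeg'⟩ := hdec d' hd1
  have hd2 : d'' = 0 := by
    rw [← Finsupp.degree_eq_zero_iff]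
    omega
  have h3 := h2 u v
  unfold hess at h3
  rw [eval_zero, coeff_pderiv] at h3
  rw [e', hd2]
  rcases mul_eq_zero.1 h3 with h | h
  · exact h
  · simp at h

variable [Fintype V]

/-- the linear substitution -/
noncomputable def lin (A : Matrix V V K) (v : V) : MvPolynomial V K := ∑ u, C (A v u) * X u

theorem pderiv_lin [DecidableEq V] (A : Matrix V V K) (u v : V) :
    pderiv u (lin A v) = C (A v u) := by
  unfold lin
  rw [map_sum, Finset.sum_eq_single u]
  · rw [pderiv_C_mul, pderiv_X_self, mul_one]
  · intro w _ hw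
    rw [pderiv_C_mul, pderiv_X_of_ne hw, mul_zero]
  · intro h
    exact absurd (Finset.mem_univ u) h

theorem chain [DecidableEq V] (A : Matrix V V K) (F : MvPolynomial V K) (u : V) :
    pderiv u (aeval (lin A) F) = ∑ w, C (A w u) * aeval (lin A) (pderiv w F) := by
  induction F using MvPolynomial.induction_on with
  | C a =>
    rw [aeval_C, algebraMap_eq, pderiv_C]
    refine (Finset.sum_eq_zero fun w _ => ?_).symm
    rw [pderiv_C, map_zero, mul_zero]
  | add p q hp hq =>
    rw [map_add, map_add, hp, hq, ← Finset.sum_add_distrib]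
    refine Finset.sum_congr rfl fun w _ => ?_
    rw [map_add, map_add, mul_add]
  | mul_X p n hp =>
    rw [map_mul, aeval_X, pderiv_mul, hp, pderiv_lin, Finset.sum_mul]
    have h : ∑ w, C (A w u) * aeval (lin A) (pderiv w (p * X n)) =
        ∑ w, C (A w u) * aeval (lin A) (pderiv w p) * lin A n +
        ∑ w, C (A w u) * (aeval (lin A) p *
          aeval (lin A) (pderiv w (X n : MvPolynomial V K))) := by
      rw [← Finset.sum_add_distrib]
      refine Finset.sum_congr rfl fun w _ => ?_
      rw [pderiv_mul, map_add, map_mul, map_mul, aeval_X]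
      ring
    rw [h]
    congr 1
    rw [Finset.sum_eq_single n]
    · rw [pderiv_X_self, map_one]
      ring
    · intro w _ hw
      rw [pderiv_X_of_ne hw.symm, map_zero]
      ring
    · intro h
      exact absurd (Finset.mem_univ n) h

theorem eval_lin (A : Matrix V V K) (q : MvPolynomial V K) :
    eval 0 (aeval (lin A) q) = eval 0 q := by
  have h : (eval (0 : V → K)).comp (aeval (lin A) : MvPolynomial V K →ₐ[K] MvPolynomial V K).toRingHom
      = eval 0 := by
    apply MvPolynomial.ringHom_ext
    · intro r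
      simp
    · intro i
      simp [lin]
  exact congrArg (fun f => f q) h

theorem hess_lin [DecidableEq V] (A : Matrix V V K) (F : MvPolynomial V K) (u v : V) :
    hess (aeval (lin A) F) u v =
      (A.transpose * Matrix.of (fun u v => hess F u v) * A) u v := by
  unfold hess
  rw [chain, map_sum, map_sum, Matrix.mul_apply]
  refine Finset.sum_congr rfl fun w _ => ?_
  rw [pderiv_C_mul, map_mul, eval_C, chain, map_sum, Matrix.mul_apply, mul_comm]
  congr 1
  refine Finset.sum_congr rfl fun w' _ => ?_
  rw [map_mul, eval_C, eval_lin]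
  rfl

/-- diagonal quadratic forms -/
noncomputable def dq (b : V → K) : MvPolynomial V K := ∑ v, C (b v) * X v ^ 2

theorem pderiv_dq [DecidableEq V] (b : V → K) (v : V) : pderiv v (dq b) = C (2 * b v) * X v := by
  unfold dq
  rw [map_sum, Finset.sum_eq_single v]
  · rw [pderiv_C_mul, pderiv_pow, pderiv_X_self, C_mul,
      show (C (2 : K) : MvPolynomial V K) = 2 from map_ofNat C 2]
    simp
    ring
  · intro w _ hw
    rw [pderiv_C_mul, pderiv_pow, pderiv_X_of_ne hw]
    ring
  · intro h
    exact absurd (Finset.mem_univ v) h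

theorem hess_dq [DecidableEq V] (b : V → K) (u v : V) :
    hess (dq b) u v = if u = v then 2 * b v else 0 := by
  unfold hess
  rw [pderiv_dq, pderiv_C_mul, map_mul, eval_C]
  by_cases h : u = v
  · rw [if_pos h, h, pderiv_X_self, map_one, mul_one]
  · rw [if_neg h, pderiv_X_of_ne (Ne.symm h), map_zero, mul_zero]

end

/-- diagonalization of symmetric matrices -/
theorem diag_symm {K : Type} [Field K] [CharZero K] {V : Type} [Fintype V] [DecidableEq V]
    (H : Matrix V V K) (hH : H.IsSymm) : ∃ (A : Matrix V V K) (d : V → K), IsUnit A.det ∧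
      A.transpose * H * A = Matrix.diagonal d := by
  have : Invertible (2 : K) := invertibleOfNonzero two_ne_zero
  have hs : (Matrix.toBilin' H).IsSymm := Matrix.isSymm_toBilin'_iff_isSymm.2 hH
  obtain ⟨b, hb⟩ := LinearMap.BilinForm.exists_orthogonal_basis
    (LinearMap.BilinForm.isSymm_iff.1 hs)
  have hc : Fintype.card (Fin (Module.finrank K (V → K))) = Fintype.card V := by
    rw [Fintype.card_fin, Module.finrank_fintype_fun_eq_card]
  let e : Fin (Module.finrank K (V → K)) ≃ V := Fintype.equivOfCardEq hc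
  let b' := b.reindex e
  let A : Matrix V V K := Matrix.of fun i j => b' j i
  refine ⟨A, fun j => Matrix.toBilin' H (b' j) (b' j), ?_, ?_⟩
  · have h1 : A = (Pi.basisFun K V).toMatrix b' := by
      ext i j
      simp [A, Module.Basis.toMatrix_apply]
    rw [h1]
    exact Matrix.isUnit_det_of_left_inverse ((b').toMatrix_mul_toMatrix_flip (Pi.basisFun K V))
  · ext i j
    have h1 : (A.transpose * H * A) i j = Matrix.toBilin' H (b' i) (b' j) := by
      rw [Matrix.toBilin'_apply, Matrix.mul_apply]
      simp only [Matrix.mul_apply, Finset.sum_mul]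
      rw [Finset.sum_comm]
      rfl
    rw [h1]
    by_cases hij : i = j
    · rw [hij, Matrix.diagonal_apply_eq]
    · rw [Matrix.diagonal_apply_ne _ hij]
      have h2 : e.symm i ≠ e.symm j := fun h => hij (e.symm.injective h)
      have h3 := LinearMap.isOrthoᵢ_def.1 hb _ _ h2
      simpa [b'] using h3

theorem t_diag : S_diag := by
  intro K _ _ W _ _ F h0 h1 hr
  classical
  obtain ⟨A, d, hA, hd⟩ := diag_symm (Matrix.of fun u v => hess F u v)
    (by ext u v; exact hess_symm F v u)
  have hcard : Fintype.card W ≤ Fintype.card {i // d i ≠ 0} := by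
    have h2 : (Matrix.diagonal d).rank = (Matrix.of fun u v => hess F u v).rank := by
      rw [← hd, Matrix.rank_mul_eq_left_of_isUnit_det _ _ hA,
        Matrix.rank_mul_eq_right_of_isUnit_det _ _ (by rwa [Matrix.det_transpose])]
    rw [Matrix.rank_diagonal] at h2
    have h3 : Fintype.card W ≤ (Matrix.of fun u v => hess F u v).rank := hr
    rw [← h2] at h3
    exact h3
  obtain ⟨f⟩ := Function.Embedding.nonempty_of_card_le hcard
  let f' : W → Fin 2 ⊕ W := fun w => (f w).1
  have hf' : Function.Injective f' := Subtype.val_injective.comp f.injective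
  -- the permutation
  obtain ⟨e, he⟩ : ∃ e : Fin 2 ⊕ W ≃ Fin 2 ⊕ W, ∀ w, e (Sum.inr w) = f' w := by
    have hc : Fintype.card (Fin 2) = Fintype.card ((Set.range f')ᶜ : Set (Fin 2 ⊕ W)) := by
      rw [Fintype.card_compl_set, Set.card_range_of_injective hf', Fintype.card_sum]
      omega
    let e1 : Fin 2 ≃ ((Set.range f')ᶜ : Set (Fin 2 ⊕ W)) := Fintype.equivOfCardEq hc
    let e2 : W ≃ Set.range f' := Equiv.ofInjective f' hf'
    refine ⟨((Equiv.sumComm _ _).trans (Equiv.sumCongr e2 e1)).trans
      (Equiv.Set.sumCompl (Set.range f')), fun w => ?_⟩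
    simp [e2]
  let A' : Matrix (Fin 2 ⊕ W) (Fin 2 ⊕ W) K := A.submatrix id e
  have hA' : IsUnit A'.det := by
    have h2 : A'.det = (Equiv.Perm.sign e : K) * A.det := Matrix.det_permute' e A
    rw [h2]
    exact ((Equiv.Perm.sign e).isUnit.map (Int.castRingHom K)).mul hA
  have hd' : A'.transpose * Matrix.of (fun u v => hess F u v) * A' =
      Matrix.diagonal (fun v => d (e v)) := by
    have h2 : A'.transpose * Matrix.of (fun u v => hess F u v) * A' =
        (A.transpose * Matrix.of (fun u v => hess F u v) * A).submatrix e e := by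
      ext i j
      rfl
    rw [h2, hd]
    ext i j
    rw [Matrix.submatrix_apply]
    by_cases hij : i = j
    · rw [hij, Matrix.diagonal_apply_eq, Matrix.diagonal_apply_eq]
    · rw [Matrix.diagonal_apply_ne _ hij, Matrix.diagonal_apply_ne _ fun h => hij (e.injective h)]
  let b : Fin 2 ⊕ W → K := fun v => d (e v) / 2
  refine ⟨A', A'⁻¹, fun w => b (Sum.inr w), ∑ i, C (b (Sum.inl i)) * X i ^ 2,
    Matrix.mul_nonsing_inv A' hA', Matrix.nonsing_inv_mul A' hA', fun w => ?_, ?_, ?_⟩
  · show d (e (Sum.inr w)) / 2 ≠ 0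
    rw [he w]
    exact div_ne_zero (f w).2 two_ne_zero
  · rw [← eval_zero, map_sum]
    refine Finset.sum_eq_zero fun i _ => ?_
    simp
  · have h2 : (rename Sum.inl (∑ i, C (b (Sum.inl i)) * X i ^ 2) : MvPolynomial (Fin 2 ⊕ W) K) +
        ∑ w, C (b (Sum.inr w)) * X (Sum.inr w) ^ 2 = dq b := by
      unfold dq
      rw [Fintype.sum_sum_type, map_sum]
      congr 1
      refine Finset.sum_congr rfl fun i _ => ?_
      rw [map_mul, map_pow, rename_C, rename_X]
    have h3 : aeval (fun v => ∑ u, C (A' v u) * X u) F -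
        rename Sum.inl (∑ i, C (b (Sum.inl i)) * X i ^ 2) -
        ∑ w, C (b (Sum.inr w)) * X (Sum.inr w) ^ 2 = aeval (lin A') F - dq b := by
      rw [← h2, sub_sub]
      rfl
    rw [h3]
    refine ord3 ?_ (fun v => ?_) (fun u v => ?_)
    · rw [← eval_zero, map_sub, eval_lin, eval_zero, h0, zero_sub, neg_eq_zero]
      unfold dq
      rw [map_sum]
      refine Finset.sum_eq_zero fun i _ => ?_
      simp
    · rw [map_sub, map_sub, chain, map_sum, pderiv_dq]
      have h4 : ∑ w, eval (0 : Fin 2 ⊕ W → K) (C (A' w v) * aeval (lin A') (pderiv w F)) = 0 := by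
        refine Finset.sum_eq_zero fun w _ => ?_
        rw [map_mul, eval_lin, h1 w, mul_zero]
      rw [h4]
      simp
    · have h4 : hess (aeval (lin A') F - dq b) u v = hess (aeval (lin A') F) u v - hess (dq b) u v := by
        unfold hess
        rw [map_sub, map_sub, map_sub]
      rw [h4, hess_lin, hd', hess_dq]
      by_cases huv : u = v
      · rw [if_pos huv, huv, Matrix.diagonal_apply_eq]
        show d (e v) - 2 * (d (e v) / 2) = 0
        rw [mul_div_cancel₀ _ (two_ne_zero), sub_self]
      · rw [if_neg huv, Matrix.diagonal_apply_ne _ huv, sub_zero]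

end Pool.Agent.L0h60.CK
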