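import Pool.Agent.L0h21.CK.Stm

/-!
# Project CK, modules m5 and sard
-/

set_option autoImplicit false

namespace Pool.Agent.L0h60.CK

open MvPolynomial Pool.Agent.L0h21.CK

theorem t_m5 : S_m5 := by
  intro V _ G h
  classical
  set I : Ideal (MvPolynomial V ℂ) := Ideal.span (insert G (Set.range fun i => pderiv i G)) with hI
  have h1 : ∀ v, (X v : MvPolynomial V ℂ) ∈ I.radical := by
    intro v
    rw [← vanishingIdeal_zeroLocus_eq_radical (K := ℂ)]
    intro x hx
    have h2 : eval x G = 0 := by
      have := hx G (Ideal.subset_span (Set.mem_insert _ _))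
      exact this
    have h3 : ∀ v, eval x (pderiv v G) = 0 := by
      intro v
      have := hx (pderiv v G) (Ideal.subset_span (Set.mem_insert_of_mem _ ⟨v, rfl⟩))
      exact this
    rw [h x h2 h3, aeval_X]
    rfl
  choose m hm using h1
  refine ⟨∑ v, m v, fun v => ?_⟩
  obtain ⟨k, hk⟩ : ∃ k, ∑ v, m v = m v + k :=
    ⟨∑ v, m v - m v, by
      have := Finset.single_le_sum (f := m) (fun i _ => Nat.zero_le _) (Finset.mem_univ v)
      omega⟩
  rw [hk, pow_add]
  exact I.mul_mem_right _ (hm v)

section sard

variable {V : Type} [Fintype V]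

open scoped TensorProduct
open KaehlerDifferential

/-- a polynomial has a nonconstant image only if its differential is not zero -/
theorem no_trans (F : MvPolynomial V ℂ) (p : Ideal (MvPolynomial V ℂ)) [p.IsPrime]
    (hJ : ∀ i, pderiv i F ∈ p) (hT : ∀ q : Polynomial ℂ, q ≠ 0 → Polynomial.aeval F q ∉ p) :
    False := by
  classical
  let B := MvPolynomial V ℂ ⧸ p
  let L := FractionRing B
  let A := MvPolynomial V ℂ
  let P := Polynomial ℂ
  let φ : P →ₐ[ℂ] L := Polynomial.aeval (algebraMap A L F)
  have hφ : ∀ q : P, φ q = algebraMap A L (Polynomial.aeval F q) := by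
    intro q
    exact Polynomial.aeval_algebraMap_apply L F q
  have hker : ∀ a : A, algebraMap A L a = 0 ↔ a ∈ p := by
    intro a
    rw [IsScalarTower.algebraMap_apply A B L]
    rw [map_eq_zero_iff _ (IsFractionRing.injective B L)]
    exact Ideal.Quotient.eq_zero_iff_mem
  have hinj : Function.Injective φ := by
    rw [injective_iff_map_eq_zero]
    intro q hq
    by_contra hq0
    rw [hφ, hker] at hq
    exact hT q hq0 hq
  let : Algebra P L := φ.toRingHom.toAlgebra
  have : IsScalarTower ℂ P L := IsScalarTower.of_algebraMap_eq fun r => (φ.commutes r).symm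
  have : FaithfulSMul P L := (faithfulSMul_iff_algebraMap_injective P L).2 hinj
  let K := FractionRing P
  let : Algebra K L := FractionRing.liftAlgebra P L
  have : IsScalarTower P K L := FractionRing.isScalarTower_liftAlgebra P L
  have : IsScalarTower ℂ K L := IsScalarTower.of_algebraMap_eq fun r => by
    rw [IsScalarTower.algebraMap_apply ℂ P K, ← IsScalarTower.algebraMap_apply P K L,
      ← IsScalarTower.algebraMap_apply ℂ P L]
  have : Algebra.EssFiniteType B L := Algebra.EssFiniteType.of_isLocalization _ (nonZeroDivisors B)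
  have : Algebra.EssFiniteType ℂ B := inferInstance
  have : Algebra.EssFiniteType ℂ L := Algebra.EssFiniteType.comp ℂ B L
  have : Algebra.EssFiniteType K L := Algebra.EssFiniteType.of_comp ℂ K L
  have : CharZero K := inferInstance
  have : Algebra.FormallySmooth K L := inferInstance
  have : Algebra.FormallySmooth P K := Algebra.FormallySmooth.of_isLocalization (nonZeroDivisors P)
  have : Algebra.FormallySmooth P L := Algebra.FormallySmooth.comp P K L
  -- the differential
  have h1 : D ℂ L (algebraMap A L F) = 0 := by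
    have e1 : D ℂ A F = ∑ i, pderiv i F • D ℂ A (X i) := by
      have e2 := (mvPolynomialBasis ℂ V).sum_repr (D ℂ A F)
      rw [← e2]
      refine Finset.sum_congr rfl fun i _ => ?_
      rw [mvPolynomialBasis_repr_apply, mvPolynomialBasis_apply]
    rw [← map_D ℂ ℂ A L F, e1, map_sum]
    refine Finset.sum_eq_zero fun i _ => ?_
    rw [map_smul, ← algebraMap_smul L (pderiv i F), (hker _).2 (hJ i), zero_smul]
  have h2 : D ℂ L (φ Polynomial.X) = 0 := by
    rw [hφ, Polynomial.aeval_X, h1]
  have h3 : mapBaseChange ℂ P L (1 ⊗ₜ D ℂ P Polynomial.X) = 0 := by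
    rw [mapBaseChange_tmul, one_smul, map_D]
    exact h2
  have h4 : Function.Injective (mapBaseChange ℂ P L) := by
    have hs : Subsingleton (Algebra.H1Cotangent P L) :=
      Algebra.FormallySmooth.subsingleton_h1Cotangent
    have hex := Algebra.H1Cotangent.exact_δ_mapBaseChange ℂ P L
    rw [injective_iff_map_eq_zero]
    intro z hz
    obtain ⟨y, rfl⟩ := (hex z).1 hz
    rw [Subsingleton.elim y 0, map_zero]
  have h5 : (1 : L) ⊗ₜ[P] D ℂ P Polynomial.X = 0 := h4 (by rw [h3, map_zero])
  have h6 := congrArg (TensorProduct.rid P L)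
    (congrArg (LinearMap.lTensor L (polynomialEquiv ℂ).toLinearMap) h5)
  rw [LinearMap.lTensor_tmul, map_zero, map_zero, TensorProduct.rid_tmul] at h6
  have h7 : (polynomialEquiv ℂ).toLinearMap (D ℂ P Polynomial.X) = 1 := by
    show polynomialEquiv ℂ (D ℂ P Polynomial.X) = 1
    rw [polynomialEquiv_D, Polynomial.derivative_X]
  rw [h7, one_smul] at h6
  exact one_ne_zero h6

theorem t_sard : S_sard := by
  intro V _ F
  classical
  set J : Ideal (MvPolynomial V ℂ) := Ideal.span (Set.range fun i => pderiv i F) with hJ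
  have hJi : ∀ i, pderiv i F ∈ J := fun i => Ideal.subset_span ⟨i, rfl⟩
  by_cases hq : ∃ q : Polynomial ℂ, q ≠ 0 ∧ Polynomial.aeval F q ∈ J
  · obtain ⟨q, hq0, hq⟩ := hq
    refine (q.roots.toFinset.finite_toSet).subset ?_
    rintro c ⟨x, hx, hv⟩
    rw [Finset.mem_coe, Multiset.mem_toFinset, Polynomial.mem_roots hq0, Polynomial.IsRoot]
    have h1 : ∀ a ∈ J, aeval x a = (0 : ℂ) := by
      have h2 : J ≤ RingHom.ker (aeval x : MvPolynomial V ℂ →ₐ[ℂ] ℂ) := by
        rw [hJ, Ideal.span_le]
        rintro _ ⟨i, rfl⟩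
        exact hv i
      exact fun a ha => h2 ha
    have h3 := h1 _ hq
    rw [← Polynomial.aeval_algHom_apply] at h3
    have h4 : aeval x F = c := hx
    rw [h4] at h3
    exact h3
  · exfalso
    push Not at hq
    let S : Submonoid (MvPolynomial V ℂ) :=
      (nonZeroDivisors (Polynomial ℂ)).map (Polynomial.aeval F : Polynomial ℂ →ₐ[ℂ] MvPolynomial V ℂ)
    have hd : Disjoint (J : Set (MvPolynomial V ℂ)) S := by
      rw [Set.disjoint_left]
      rintro a ha ⟨q, hq', rfl⟩
      exact hq q (nonZeroDivisors.ne_zero hq') ha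
    obtain ⟨p, hp, hJp, hdp⟩ := Ideal.exists_le_prime_disjoint J S hd
    refine no_trans F p (fun i => hJp (hJi i)) fun q hq0 hqp => ?_
    exact Set.disjoint_left.1 hdp hqp ⟨q, mem_nonZeroDivisors_of_ne_zero hq0, rfl⟩

end sard

end Pool.Agent.L0h60.CK
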